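import Pool.Agent.TH262.RX.L1

/-!
Planar self-avoiding walk: the two-step ratio limit for the number of walks to a given point, with a
rate, uniformly in the point up to distance `κ n`, and in `L¹`.
-/

set_option autoImplicit false

open Filter Topology

namespace Pool.Agent.Results.MP_55bc5d_pr.LocalRatioLimit

/-- `ω` is an `n`-step self-avoiding walk on `ℤ²` started at the origin. -/
def IsSAW (n : ℕ) (ω : Fin (n + 1) → ℤ × ℤ) : Prop :=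
  ω 0 = (0, 0) ∧
  (∀ i : Fin n, |(ω i.succ).1 - (ω i.castSucc).1| + |(ω i.succ).2 - (ω i.castSucc).2| = 1) ∧
  Function.Injective ω

/-- `c_n`: the number of `n`-step self-avoiding walks from the origin -/
noncomputable def c (n : ℕ) : ℕ := Nat.card {ω : Fin (n + 1) → ℤ × ℤ // IsSAW n ω}

/-- `c_n(x)`: the number of `n`-step self-avoiding walks from the origin to `x` -/
noncomputable def cx (n : ℕ) (x : ℤ × ℤ) : ℕ :=
  Nat.card {ω : Fin (n + 1) → ℤ × ℤ // IsSAW n ω ∧ ω (Fin.last n) = x}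

/-- the Euclidean norm of a point of `ℤ²` -/
noncomputable def norm2 (x : ℤ × ℤ) : ℝ := Real.sqrt ((x.1 : ℝ) ^ 2 + (x.2 : ℝ) ^ 2)

/-- the error term `((1 + |x|²/n) log(2 + n/|x|)³ / n)^(1/2)` -/
noncomputable def err (n : ℕ) (x : ℤ × ℤ) : ℝ :=
  Real.sqrt ((1 + norm2 x ^ 2 / n) * Real.log (2 + n / norm2 x) ^ 3 / n)

open Pool.Agent.TH262.RX

theorem c_eq (m : ℕ) : c m = TH795.EP.c m := TH795.EP.card_walks m

theorem cx_eq (m : ℕ) (x : ℤ × ℤ) : cx m x = TH795.EP.a m x.1 x.2 := TH795.EP.card_walks_to m x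

theorem cx_zero {n N : ℕ} (h : n ≤ N) {x : ℤ × ℤ} (hx : x ∉ box N) : (cx n x : ℝ) = 0 := by
  rw [cx_eq]
  by_contra hcon
  apply hx
  apply mem_box_of_pos h
  unfold Pw
  have := one_le_c n
  exact div_ne_zero hcon (by linarith)

/-- **Theorem.** Let `μ = lim c_n^(1/n)`.
(1) There are `κ > 0` and `K` such that for every `n` and every lattice point `x ≠ 0` with
`|x| ≤ κ n` and `x₁ + x₂ ≡ n (mod 2)`: `c_n(x) > 0` and
`|c_{n+2}(x) / c_n(x) - μ²| ≤ K ((1 + |x|²/n) log(2 + n/|x|)³ / n)^(1/2)`.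
(2) `∑_x |c_{n+2}(x) - μ² c_n(x)| ≤ K (log n / √n) c_n` for all `n ≥ 2`. -/
theorem result : ∃ μ : ℝ, 0 < μ ∧ Tendsto (fun n : ℕ => (c n : ℝ) ^ (1 / (n : ℝ))) atTop (𝓝 μ) ∧
    (∃ κ : ℝ, 0 < κ ∧ ∃ K : ℝ, ∀ n : ℕ, ∀ x : ℤ × ℤ, x ≠ 0 → (x.1 + x.2 - n) % 2 = 0 →
      norm2 x ≤ κ * n → 0 < cx n x ∧ |(cx (n + 2) x : ℝ) / cx n x - μ ^ 2| ≤ K * err n x) ∧
    ∃ K : ℝ, ∀ n : ℕ, 2 ≤ n → ∑' x : ℤ × ℤ, |(cx (n + 2) x : ℝ) - μ ^ 2 * cx n x| ≤
      K * (Real.log n / Real.sqrt n) * c n := by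
  refine ⟨H981.mu, H981.mu_pos, ?_, ?_, ?_⟩
  · refine H981.tendsto_root.congr (fun n => ?_)
    rw [c_eq, TH795.EP.c_eq]
  · obtain ⟨κ, hκ, -, K, -, h⟩ := ratios
    refine ⟨κ, hκ, K, fun n x hx hpar hr => ?_⟩
    obtain ⟨h1, h2, -⟩ := h n x.1 x.2 hx hpar (norm2 x) (Real.sqrt_nonneg _)
      (Real.sq_sqrt (by positivity)) hr
    refine ⟨?_, ?_⟩
    · rw [cx_eq]; exact_mod_cast h1
    · rw [cx_eq, cx_eq]; exact h2
  · obtain ⟨K, -, h⟩ := l1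
    refine ⟨K, fun n hn => ?_⟩
    rw [tsum_eq_sum (s := box (n + 2))]
    · rw [c_eq]
      refine le_trans (le_of_eq ?_) (h n hn)
      exact Finset.sum_congr rfl fun x _ => by rw [cx_eq, cx_eq]
    · intro x hx
      rw [cx_zero le_rfl hx, cx_zero (by omega) hx]
      simp

end Pool.Agent.Results.MP_55bc5d_pr.LocalRatioLimit
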