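import Pool.Agent.TH262.RX.Sparse

/-!
Self-avoiding walks on the square lattice: the one-step ratio limit `c_{n+1} / c_n → μ` holds as soon as
it holds along a sequence of lengths with gaps `o(√n / log n)`.
-/

set_option autoImplicit false

open Filter Topology

namespace Pool.Agent.Results.MP_55bc5d_pr.OneStepSparse

/-- `ω` is an `n`-step self-avoiding walk on `ℤ²` started at the origin. -/
def IsSAW (n : ℕ) (ω : Fin (n + 1) → ℤ × ℤ) : Prop :=
  ω 0 = (0, 0) ∧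
  (∀ i : Fin n, |(ω i.succ).1 - (ω i.castSucc).1| + |(ω i.succ).2 - (ω i.castSucc).2| = 1) ∧
  Function.Injective ω

/-- `c_n`: the number of `n`-step self-avoiding walks from the origin -/
noncomputable def c (n : ℕ) : ℕ := Nat.card {ω : Fin (n + 1) → ℤ × ℤ // IsSAW n ω}

open Pool.Agent.TH262.RX

theorem c_eq (m : ℕ) : c m = TH795.EP.c m := TH795.EP.card_walks m

/-- **Theorem.** Let `μ = lim c_n^(1/n)`. Let `s_k → ∞` be lengths with
`|s_{k+1} - s_k| log s_k / √(s_k) → 0`. If `c_{s_k+1} / c_{s_k} → μ`, then `c_{n+1} / c_n → μ`. -/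
theorem result : ∃ μ : ℝ, 0 < μ ∧ Tendsto (fun n : ℕ => (c n : ℝ) ^ (1 / (n : ℝ))) atTop (𝓝 μ) ∧
    ∀ s : ℕ → ℕ, Tendsto s atTop atTop →
      Tendsto (fun k => |(s (k + 1) : ℝ) - s k| * (Real.log (s k) / Real.sqrt (s k))) atTop (𝓝 0) →
      Tendsto (fun k => (c (s k + 1) : ℝ) / c (s k)) atTop (𝓝 μ) →
      Tendsto (fun n => (c (n + 1) : ℝ) / c n) atTop (𝓝 μ) := by
  refine ⟨H981.mu, H981.mu_pos, ?_, fun s hs hgap hl => ?_⟩
  · refine H981.tendsto_root.congr (fun n => ?_)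
    rw [c_eq, TH795.EP.c_eq]
  · have e : ∀ n : ℕ, (c (n + 1) : ℝ) / c n = rr n := fun n => by rw [c_eq, c_eq]; rfl
    simp_rw [e] at hl ⊢
    exact one_step hs hgap hl

end Pool.Agent.Results.MP_55bc5d_pr.OneStepSparse
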